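import Mathlib

/-!
# The regularity axiom for contact algebras is not first-order

We show that no first-order theory (in particular no first-order sentence) in the language of
contact algebras axiomatises the contact algebras satisfying the regularity axiom (Reg).
-/

set_option autoImplicit false

universe u

namespace Pool.Agent.Results.MP_50aa38_lc.NotFirstOrder

open FirstOrder FirstOrder.Language

/-- A contact algebra: a Boolean algebra with a binary relation `C` satisfying (C1)-(C4). -/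
class ContactAlgebra (B : Type u) extends BooleanAlgebra B where
  /-- the contact relation -/
  C : B → B → Prop
  /-- (C1) -/
  c1 : ∀ a b : B, C a b → a ≠ ⊥ ∧ b ≠ ⊥
  /-- (C2) -/
  c2 : ∀ a b c : B, C a (b ⊔ c) ↔ C a b ∨ C a c
  /-- (C3) -/
  c3 : ∀ a b : B, C a b → C b a
  /-- (C4) -/
  c4 : ∀ a b : B, a ⊓ b ≠ ⊥ → C a b

open ContactAlgebra

section Defs

variable {B : Type u} [ContactAlgebra B]

/-- `a ≪ b`, that is, `a` is not in contact with the complement of `b`. -/
def WellInside (a b : B) : Prop := ¬ C a bᶜ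

/-- Clans. -/
structure IsClan (Γ : Set B) : Prop where
  nonempty : Γ.Nonempty
  bot_notMem : (⊥ : B) ∉ Γ
  upward : ∀ a b : B, a ≤ b → a ∈ Γ → b ∈ Γ
  prime : ∀ a b : B, a ⊔ b ∈ Γ → a ∈ Γ ∨ b ∈ Γ
  contact : ∀ a b : B, a ∈ Γ → b ∈ Γ → C a b

/-- Clusters: clans `Γ` such that every `a` in contact with all members of `Γ` is in `Γ`. -/
structure IsCluster (Γ : Set B) : Prop where
  clan : IsClan Γ
  maximal : ∀ a : B, (∀ b ∈ Γ, C a b) → a ∈ Γ

/-- Co-ends: clusters `Γ` such that for every `a ∉ Γ` there is `b ∉ Γ` with `a ≪ b`. -/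
structure IsCoEnd (Γ : Set B) : Prop where
  cluster : IsCluster Γ
  round : ∀ a : B, a ∉ Γ → ∃ b : B, b ∉ Γ ∧ WellInside a b

end Defs

/-- The regularity axiom (Reg): if `a C b` then some co-end contains both `a` and `b`. -/
def Reg (B : Type u) [ContactAlgebra B] : Prop :=
  ∀ a b : B, C a b → ∃ Γ : Set B, IsCoEnd Γ ∧ a ∈ Γ ∧ b ∈ Γ

/-- Function symbols of the language of contact algebras: `0`, `1`, `*`, `∨`, `∧`. -/
inductive CAFunc : ℕ → Type
  | zero : CAFunc 0
  | one : CAFunc 0
  | compl : CAFunc 1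
  | sup : CAFunc 2
  | inf : CAFunc 2

/-- Relation symbols of the language of contact algebras: the binary symbol `C`. -/
inductive CARel : ℕ → Type
  | contact : CARel 2

/-- The first-order language of contact algebras. -/
def langCA : FirstOrder.Language.{0, 0} := ⟨CAFunc, CARel⟩

/-- Interpretation of the function symbols in a contact algebra. -/
def interpFun (B : Type u) [ContactAlgebra B] : ∀ {n : ℕ}, CAFunc n → (Fin n → B) → B
  | _, CAFunc.zero, _ => ⊥
  | _, CAFunc.one, _ => ⊤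
  | _, CAFunc.compl, x => (x 0)ᶜ
  | _, CAFunc.sup, x => x 0 ⊔ x 1
  | _, CAFunc.inf, x => x 0 ⊓ x 1

/-- Interpretation of the relation symbol in a contact algebra. -/
def interpRel (B : Type u) [ContactAlgebra B] : ∀ {n : ℕ}, CARel n → (Fin n → B) → Prop
  | _, CARel.contact, x => C (x 0) (x 1)

/-- Every contact algebra is a structure for the language of contact algebras. -/
instance instStructure (B : Type u) [ContactAlgebra B] : langCA.Structure B where
  funMap := interpFun B
  RelMap := interpRel B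

/-! ## Basic lemmas -/

section Basic

variable {B : Type u} [ContactAlgebra B]

lemma C_symm {a b : B} (h : C a b) : C b a := c3 a b h

lemma C_mono {a a' b b' : B} (ha : a ≤ a') (hb : b ≤ b') (h : C a b) : C a' b' := by
  have h1 : C a b' := by
    have : C a (b ⊔ b') := (c2 a b b').2 (Or.inl h)
    rwa [sup_eq_right.2 hb] at this
  have h2 : C b' (a ⊔ a') := (c2 b' a a').2 (Or.inl (C_symm h1))
  rw [sup_eq_right.2 ha] at h2
  exact C_symm h2

end Basic

/-- The auxiliary first-order condition used in the proof. It implies (Reg) for countable algebras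
(`reg_of_countable`); it is not a consequence of (Reg). -/
def Dense (B : Type u) [ContactAlgebra B] : Prop :=
  ∀ a b c d : B, C a b → ¬ C c d →
    ∃ w : B, ¬ C w wᶜ ∧ C (a ⊓ w) (b ⊓ w) ∧ (¬ C w c ∨ ¬ C w d)

/-! ## Countable contact algebras -/

section Countable

variable {B : Type u} [ContactAlgebra B]

lemma step (hD : Dense B) (a b : B) (p : B × B) (w : B) (hw : ¬ C w wᶜ)
    (hab : C (a ⊓ w) (b ⊓ w)) :
    ∃ w' : B, w' ≤ w ∧ ¬ C w' w'ᶜ ∧ C (a ⊓ w') (b ⊓ w') ∧
      (¬ C p.1 p.2 → (¬ C w' p.1 ∨ ¬ C w' p.2)) := by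
  by_cases hp : C p.1 p.2
  · exact ⟨w, le_rfl, hw, hab, fun h => absurd hp h⟩
  · obtain ⟨v, hv, habv, hcd⟩ := hD (a ⊓ w) (b ⊓ w) p.1 p.2 hab hp
    refine ⟨w ⊓ v, inf_le_left, ?_, ?_, fun _ => ?_⟩
    · intro h
      rw [compl_inf] at h
      rcases (c2 _ _ _).1 h with h | h
      · exact hw (C_mono inf_le_left le_rfl h)
      · exact hv (C_mono inf_le_right le_rfl h)
    · rwa [← inf_assoc, ← inf_assoc]
    · rcases hcd with h | h
      · exact Or.inl fun h' => h (C_mono inf_le_right le_rfl h')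
      · exact Or.inr fun h' => h (C_mono inf_le_right le_rfl h')

theorem reg_of_countable [Countable B] (hD : Dense B) : Reg B := by
  intro a b hab
  have : Nonempty (B × B) := ⟨(a, b)⟩
  obtain ⟨e, he⟩ := exists_surjective_nat (B × B)
  let P : B → Prop := fun w => ¬ C w wᶜ ∧ C (a ⊓ w) (b ⊓ w)
  have hP0 : P ⊤ := by
    refine ⟨?_, by simpa using hab⟩
    intro h
    exact (c1 _ _ h).2 (by simp)
  have key : ∀ (n : ℕ) (w : {w : B // P w}), ∃ w' : {w : B // P w}, w'.1 ≤ w.1 ∧
      (¬ C (e n).1 (e n).2 → (¬ C w'.1 (e n).1 ∨ ¬ C w'.1 (e n).2)) := by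
    intro n w
    obtain ⟨w', h1, h2, h3, h4⟩ := step hD a b (e n) w.1 w.2.1 w.2.2
    exact ⟨⟨w', h2, h3⟩, h1, h4⟩
  choose f hf1 hf2 using key
  let w : ℕ → {w : B // P w} := fun n => Nat.rec ⟨⊤, hP0⟩ (fun n v => f n v) n
  have hws : ∀ n, w (n + 1) = f n (w n) := fun n => rfl
  have hanti : Antitone fun n => (w n).1 := by
    apply antitone_nat_of_succ_le
    intro n
    show (w (n + 1)).1 ≤ (w n).1
    rw [hws]
    exact hf1 n (w n)
  let Γ : Set B := {x | ∀ n, C x (w n).1}
  have hsep : ∀ x n, ¬ C x (w n).1 → x ≤ (w n).1ᶜ := by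
    intro x n h
    rw [le_compl_iff_disjoint_right, disjoint_iff]
    by_contra hne
    exact h (c4 _ _ hne)
  have hclan : IsClan Γ := by
    refine ⟨⟨a, fun n => ?_⟩, fun h => ?_, fun x y hxy hx n => ?_, fun x y hxy => ?_,
      fun x y hx hy => ?_⟩
    · have h := (w n).2.2
      have h1 : a ⊓ (w n).1 ≠ ⊥ := (c1 _ _ h).1
      exact c4 _ _ h1
    · exact (c1 _ _ (h 0)).1 rfl
    · exact C_mono hxy le_rfl (hx n)
    · by_contra hcon
      simp only [Γ, Set.mem_ofPred_eq, not_or, not_forall] at hcon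
      obtain ⟨⟨n, hn⟩, ⟨m, hm⟩⟩ := hcon
      have h := hxy (max n m)
      rcases (c2 _ _ _).1 (C_symm h) with h | h
      · exact hn (C_mono le_rfl (hanti (le_max_left n m)) (C_symm h))
      · exact hm (C_mono le_rfl (hanti (le_max_right n m)) (C_symm h))
    · by_contra hcon
      obtain ⟨n, hn⟩ := he (x, y)
      have h := hf2 n (w n)
      rw [hn] at h
      rcases h hcon with h | h
      · exact h (C_symm (hx (n + 1)))
      · exact h (C_symm (hy (n + 1)))
  have hround : ∀ x : B, x ∉ Γ → ∃ y : B, y ∉ Γ ∧ WellInside x y := by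
    intro x hx
    simp only [Γ, Set.mem_ofPred_eq, not_forall] at hx
    obtain ⟨n, hn⟩ := hx
    refine ⟨(w n).1ᶜ, fun h => ?_, fun h => ?_⟩
    · exact (w n).2.1 (C_symm (h n))
    · rw [compl_compl] at h
      exact hn h
  refine ⟨Γ, ⟨⟨hclan, fun x hx => ?_⟩, hround⟩, fun n => ?_, fun n => ?_⟩
  · by_contra hxΓ
    obtain ⟨y, hy, hxy⟩ := hround x hxΓ
    have htop : (⊤ : B) ∈ Γ := by
      obtain ⟨z, hz⟩ := hclan.nonempty
      exact hclan.upward z ⊤ le_top hz
    have : y ⊔ yᶜ ∈ Γ := by rwa [sup_compl_eq_top]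
    rcases hclan.prime _ _ this with h | h
    · exact hy h
    · exact hxy (hx _ h)
  · have h1 : a ⊓ (w n).1 ≠ ⊥ := (c1 _ _ (w n).2.2).1
    exact c4 _ _ h1
  · have h1 : b ⊓ (w n).1 ≠ ⊥ := (c1 _ _ (w n).2.2).2
    exact c4 _ _ h1

end Countable

/-! ## An uncountable contact algebra without co-ends -/

namespace Example

/-- The Cantor space, in universe `u`. -/
abbrev K : Type u := ℕ → ULift.{u} Bool

/-- `n` is the first difference of `p` and `i`. -/
def FD (i p : K.{u}) (n : ℕ) : Prop := (∀ m < n, p m = i m) ∧ p n ≠ i n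

lemma FD.unique {i p : K.{u}} {n m : ℕ} (h1 : FD i p n) (h2 : FD i p m) : n = m := by
  rcases lt_trichotomy n m with h | h | h
  · exact absurd (h2.1 n h) h1.2
  · exact h
  · exact absurd (h1.1 m h) h2.2

lemma FD.ne {i p : K.{u}} {n : ℕ} (h : FD i p n) : p ≠ i := fun e => h.2 (by rw [e])

lemma exists_FD {i p : K.{u}} (h : p ≠ i) : ∃ n, FD i p n := by
  classical
  have hex : ∃ n, p n ≠ i n := by
    by_contra hcon
    push Not at hcon
    exact h (funext hcon)
  refine ⟨Nat.find hex, fun m hm => ?_, Nat.find_spec hex⟩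
  have := Nat.find_min hex hm
  push Not at this
  exact this

/-- `p` lies in the closed set number `ε` attached to `i`. -/
def Side (i : K.{u}) (ε : Bool) (p : K.{u}) : Prop := p = i ∨ ∃ n, Nat.bodd n = ε ∧ FD i p n

/-- The points of the space: `(p, none)` and `(p, some (i, ε))` with `p` in the closed set
number `ε` attached to `i`. -/
def Pt : Type u := {s : K.{u} × Option (K.{u} × Bool) // ∀ i ε, s.2 = some (i, ε) → Side i ε s.1}

/-- The base point of a point. -/
def Pt.base (s : Pt.{u}) : K.{u} := s.1.1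

/-- The label of a point. -/
def Pt.lab (s : Pt.{u}) : Option (K.{u} × Bool) := s.1.2

lemma Pt.ext {s t : Pt.{u}} (h1 : s.base = t.base) (h2 : s.lab = t.lab) : s = t :=
  Subtype.ext (Prod.ext h1 h2)

/-- The relation on points. -/
def Rel (s t : Pt.{u}) : Prop :=
  s.base = t.base ∧ ¬ ∃ ε, s.lab = some (s.base, ε) ∧ t.lab = some (s.base, !ε)

lemma Rel.refl (s : Pt.{u}) : Rel s s := by
  refine ⟨rfl, ?_⟩
  rintro ⟨ε, h1, h2⟩
  rw [h1] at h2
  simp at h2

lemma Rel.symm {s t : Pt.{u}} (h : Rel s t) : Rel t s := by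
  refine ⟨h.1.symm, ?_⟩
  rintro ⟨ε, h1, h2⟩
  refine h.2 ⟨!ε, ?_, ?_⟩
  · rw [h2, h.1]
  · rw [h1, h.1, Bool.not_not]

/-- `b` is determined by the first `N` coordinates of the base point and the label, where all
labels outside `F` (and the empty label) are identified. -/
def Det (N : ℕ) (F : Finset (K.{u} × Bool)) (b : Set Pt.{u}) : Prop :=
  ∀ s t : Pt.{u}, (∀ n < N, s.base n = t.base n) →
    (s.lab = t.lab ∨ ((∀ x ∈ F, s.lab ≠ some x) ∧ (∀ x ∈ F, t.lab ≠ some x))) → s ∈ b → t ∈ b

lemma Det.mono {N N' : ℕ} {F F' : Finset (K.{u} × Bool)} {b : Set Pt.{u}} (h : Det N F b)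
    (hN : N ≤ N') (hF : F ⊆ F') : Det N' F' b := by
  intro s t h1 h2
  refine h s t (fun n hn => h1 n (lt_of_lt_of_le hn hN)) ?_
  rcases h2 with h2 | h2
  · exact Or.inl h2
  · exact Or.inr ⟨fun x hx => h2.1 x (hF hx), fun x hx => h2.2 x (hF hx)⟩

lemma Det.compl {N : ℕ} {F : Finset (K.{u} × Bool)} {b : Set Pt.{u}} (h : Det N F b) :
    Det N F bᶜ := by
  intro s t h1 h2 hs ht
  refine hs (h t s (fun n hn => (h1 n hn).symm) ?_ ht)
  rcases h2 with h2 | h2
  · exact Or.inl h2.symm
  · exact Or.inr ⟨h2.2, h2.1⟩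

/-- The Boolean algebra of finitely determined sets of points. -/
def Alg : BooleanSubalgebra (Set Pt.{u}) where
  carrier := {b | ∃ N F, Det N F b}
  supClosed' := by
    classical
    rintro a ⟨N, F, ha⟩ b ⟨N', F', hb⟩
    refine ⟨max N N', F ∪ F', ?_⟩
    intro s t h1 h2 hs
    rcases hs with hs | hs
    · exact Or.inl ((ha.mono (le_max_left _ _) Finset.subset_union_left) s t h1 h2 hs)
    · exact Or.inr ((hb.mono (le_max_right _ _) Finset.subset_union_right) s t h1 h2 hs)
  infClosed' := by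
    classical
    rintro a ⟨N, F, ha⟩ b ⟨N', F', hb⟩
    refine ⟨max N N', F ∪ F', ?_⟩
    intro s t h1 h2 hs
    exact ⟨(ha.mono (le_max_left _ _) Finset.subset_union_left) s t h1 h2 hs.1,
      (hb.mono (le_max_right _ _) Finset.subset_union_right) s t h1 h2 hs.2⟩
  compl_mem' := by
    rintro a ⟨N, F, ha⟩
    exact ⟨N, F, ha.compl⟩
  bot_mem' := ⟨0, ∅, fun s t _ _ hs => hs⟩

/-- The contact algebra of finitely determined sets. -/
instance instContactAlg : ContactAlgebra (Alg.{u}) where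
  C a b := ∃ s ∈ a.1, ∃ t ∈ b.1, Rel s t
  c1 := by
    rintro a b ⟨s, hs, t, ht, -⟩
    constructor
    · rintro rfl
      exact hs
    · rintro rfl
      exact ht
  c2 := by
    intro a b c
    constructor
    · rintro ⟨s, hs, t, ht, h⟩
      rcases ht with ht | ht
      · exact Or.inl ⟨s, hs, t, ht, h⟩
      · exact Or.inr ⟨s, hs, t, ht, h⟩
    · rintro (⟨s, hs, t, ht, h⟩ | ⟨s, hs, t, ht, h⟩)
      · exact ⟨s, hs, t, Or.inl ht, h⟩
      · exact ⟨s, hs, t, Or.inr ht, h⟩
  c3 := by
    rintro a b ⟨s, hs, t, ht, h⟩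
    exact ⟨t, ht, s, hs, h.symm⟩
  c4 := by
    intro a b h
    have : (a ⊓ b).1.Nonempty := by
      rw [Set.nonempty_iff_ne_empty]
      intro h0
      exact h (Subtype.ext h0)
    obtain ⟨s, hs⟩ := this
    exact ⟨s, hs.1, s, hs.2, Rel.refl s⟩

lemma C_iff (a b : Alg.{u}) : C a b ↔ ∃ s ∈ a.1, ∃ t ∈ b.1, Rel s t := Iff.rfl

/-- The cylinder of all points whose base point agrees with `q` below `N`. -/
def cyl (q : K.{u}) (N : ℕ) : Alg.{u} :=
  ⟨{s | ∀ n < N, s.base n = q n}, N, ∅, fun s t h _ hs n hn => by rw [← h n hn]; exact hs n hn⟩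

lemma mem_cyl {q : K.{u}} {N : ℕ} {s : Pt.{u}} : s ∈ (cyl q N).1 ↔ ∀ n < N, s.base n = q n :=
  Iff.rfl

lemma mem_compl_iff (a : Alg.{u}) (s : Pt.{u}) : s ∈ (aᶜ).1 ↔ s ∉ a.1 := Iff.rfl

lemma mem_inf_iff (a b : Alg.{u}) (s : Pt.{u}) : s ∈ (a ⊓ b).1 ↔ s ∈ a.1 ∧ s ∈ b.1 := Iff.rfl

lemma mem_sup_iff (a b : Alg.{u}) (s : Pt.{u}) : s ∈ (a ⊔ b).1 ↔ s ∈ a.1 ∨ s ∈ b.1 := Iff.rfl

/-- A uniform bound for first differences. -/
lemma exists_bound (q : K.{u}) (I : Finset K.{u}) :
    ∃ M : ℕ, ∀ i ∈ I, i ≠ q → ∃ n < M, FD i q n := by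
  classical
  induction I using Finset.induction_on with
  | empty => exact ⟨0, by simp⟩
  | insert j I hj ih =>
    obtain ⟨M, hM⟩ := ih
    by_cases hjq : j = q
    · refine ⟨M, fun i hi hne => ?_⟩
      rcases Finset.mem_insert.1 hi with rfl | hi
      · exact absurd hjq hne
      · exact hM i hi hne
    · obtain ⟨n, hn⟩ := exists_FD (i := j) (p := q) (fun h => hjq h.symm)
      refine ⟨max M (n + 1), fun i hi hne => ?_⟩
      rcases Finset.mem_insert.1 hi with rfl | hi
      · exact ⟨n, lt_of_lt_of_le (Nat.lt_succ_self n) (le_max_right _ _), hn⟩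
      · obtain ⟨m, hm, h⟩ := hM i hi hne
        exact ⟨m, lt_of_lt_of_le hm (le_max_left _ _), h⟩

/-- Moving the base point inside a small cylinder around `q`, for `q` not an index in `F`. -/
lemma move {N N' : ℕ} (hN : N ≤ N') {F : Finset (K.{u} × Bool)} {b : Set Pt.{u}}
    (hb : Det N F b) {q : K.{u}} (hq : ∀ x ∈ F, ∃ n < N', FD x.1 q n)
    {s : Pt.{u}} (hs : s ∈ b) (hsq : ∀ n < N', s.base n = q n) :
    ∃ t ∈ b, t.base = q ∧ (t.lab = none ∨ ∃ x ∈ F, t.lab = some x) := by
  by_cases h : ∃ x ∈ F, s.lab = some x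
  · obtain ⟨x, hx, hsx⟩ := h
    obtain ⟨n, hn, hFD⟩ := hq x hx
    have hFD' : FD x.1 s.base n :=
      ⟨fun m hm => by rw [hsq m (hm.trans hn)]; exact hFD.1 m hm,
        by rw [hsq n hn]; exact hFD.2⟩
    have hside : Side x.1 x.2 q := by
      rcases s.2 x.1 x.2 hsx with h | ⟨m, hm, h⟩
      · exact absurd h hFD'.ne
      · have : m = n := FD.unique h hFD'
        subst this
        exact Or.inr ⟨m, hm, hFD⟩
    let t : Pt.{u} := ⟨(q, some x), by
      intro i ε h
      have h' : x = (i, ε) := Option.some.inj h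
      rw [h'] at hside
      exact hside⟩
    refine ⟨t, ?_, rfl, Or.inr ⟨x, hx, rfl⟩⟩
    exact hb s t (fun n hn => hsq n (lt_of_lt_of_le hn hN)) (Or.inl hsx) hs
  · push Not at h
    let t : Pt.{u} := ⟨(q, none), by intro i ε h; cases h⟩
    refine ⟨t, ?_, rfl, Or.inl rfl⟩
    refine hb s t (fun n hn => hsq n (lt_of_lt_of_le hn hN)) (Or.inr ⟨h, ?_⟩) hs
    intro x _ hx
    cases hx

theorem dense : Dense (Alg.{u}) := by
  classical
  intro a b c d hab hcd
  obtain ⟨s, hs, t, ht, hst⟩ := hab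
  obtain ⟨Na, Fa, ha⟩ := a.2
  obtain ⟨Nb, Fb, hb⟩ := b.2
  obtain ⟨Nc, Fc, hc⟩ := c.2
  obtain ⟨Nd, Fd, hd⟩ := d.2
  -- a common bound
  obtain ⟨N, F, ha, hb, hc, hd⟩ : ∃ N F, Det N F a.1 ∧ Det N F b.1 ∧ Det N F c.1 ∧
      Det N F d.1 := by
    refine ⟨max (max Na Nb) (max Nc Nd), (Fa ∪ Fb) ∪ (Fc ∪ Fd), ha.mono ?_ ?_, hb.mono ?_ ?_,
      hc.mono ?_ ?_, hd.mono ?_ ?_⟩
    · exact (le_max_left _ _).trans (le_max_left _ _)
    · exact Finset.subset_union_left.trans Finset.subset_union_left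
    · exact (le_max_right _ _).trans (le_max_left _ _)
    · exact Finset.subset_union_right.trans Finset.subset_union_left
    · exact (le_max_left _ _).trans (le_max_right _ _)
    · exact Finset.subset_union_left.trans Finset.subset_union_right
    · exact (le_max_right _ _).trans (le_max_right _ _)
    · exact Finset.subset_union_right.trans Finset.subset_union_right
  -- finite set of indices
  let I : Finset K.{u} := F.image Prod.fst ∪
    ((s.lab.toFinset.image Prod.fst) ∪ (t.lab.toFinset.image Prod.fst))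
  have hIF : ∀ x ∈ F, x.1 ∈ I := fun x hx =>
    Finset.mem_union_left _ (Finset.mem_image_of_mem _ hx)
  have hIs : ∀ i ε, s.lab = some (i, ε) → i ∈ I := by
    intro i ε h
    refine Finset.mem_union_right _ (Finset.mem_union_left _ ?_)
    exact Finset.mem_image.2 ⟨(i, ε), by simp [h], rfl⟩
  have hIt : ∀ i ε, t.lab = some (i, ε) → i ∈ I := by
    intro i ε h
    refine Finset.mem_union_right _ (Finset.mem_union_right _ ?_)
    exact Finset.mem_image.2 ⟨(i, ε), by simp [h], rfl⟩
  -- the parity required at the base point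
  obtain ⟨ε0, hε1, hε2⟩ : ∃ ε0, (∀ ε, s.lab = some (s.base, ε) → ε = ε0) ∧
      (∀ ε, t.lab = some (s.base, ε) → ε = ε0) := by
    by_cases h1 : ∃ ε, s.lab = some (s.base, ε)
    · obtain ⟨ε0, h0⟩ := h1
      refine ⟨ε0, fun ε h => ?_, fun ε h => ?_⟩
      · rw [h0] at h
        simpa using h.symm
      · by_contra hne
        refine hst.2 ⟨ε0, h0, ?_⟩
        rw [h]
        have : ε = !ε0 := by
          cases ε <;> cases ε0 <;> simp_all
        rw [this]
    · push Not at h1
      by_cases h2 : ∃ ε, t.lab = some (s.base, ε)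
      · obtain ⟨ε0, h0⟩ := h2
        refine ⟨ε0, fun ε h => absurd h (h1 ε), fun ε h => ?_⟩
        rw [h0] at h
        simpa using h.symm
      · push Not at h2
        exact ⟨true, fun ε h => absurd h (h1 ε), fun ε h => absurd h (h2 ε)⟩
  obtain ⟨M0, hM0⟩ := exists_bound s.base I
  obtain ⟨M, hMN, hMM, hMε⟩ : ∃ M, N ≤ M ∧ M0 ≤ M ∧ Nat.bodd M = ε0 := by
    cases ε0 with
    | false =>
      exact ⟨2 * max N M0, by omega, by omega, by simp⟩
    | true =>
      exact ⟨2 * max N M0 + 1, by omega, by omega, by simp⟩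
  -- the new base point
  let q : K.{u} := Function.update s.base M ⟨!(s.base M).down⟩
  have hqM : ∀ n < M, q n = s.base n := fun n hn => Function.update_of_ne hn.ne _ _
  have hqM' : q M ≠ s.base M := by
    simp only [q, Function.update_self]
    intro h
    have h' := congrArg ULift.down h
    simp at h'
  have hFDq : ∀ i ∈ I, ∃ n, FD i q n ∧ (i ≠ s.base → FD i s.base n) ∧ (i = s.base → n = M) := by
    intro i hi
    by_cases his : i = s.base
    · refine ⟨M, ⟨fun m hm => ?_, ?_⟩, fun h => absurd his h, fun _ => rfl⟩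
      · rw [his]; exact hqM m hm
      · rw [his]; exact hqM'
    · obtain ⟨n, hn, hFD⟩ := hM0 i hi his
      have hnM : n < M := lt_of_lt_of_le hn hMM
      refine ⟨n, ⟨fun m hm => ?_, ?_⟩, fun _ => hFD, fun h => absurd h his⟩
      · rw [hqM m (hm.trans hnM)]; exact hFD.1 m hm
      · rw [hqM n hnM]; exact hFD.2
  have hqI : ∀ i ∈ I, i ≠ q := by
    intro i hi h
    obtain ⟨n, hn, -⟩ := hFDq i hi
    exact hn.ne h.symm
  -- validity of the moved points
  have hvalid : ∀ r : Pt.{u}, r.base = s.base → (∀ i ε, r.lab = some (i, ε) → i ∈ I) →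
      (∀ ε, r.lab = some (s.base, ε) → ε = ε0) →
      ∀ i ε, r.lab = some (i, ε) → Side i ε q := by
    intro r hr h1 h2 i ε h
    obtain ⟨n, hn, hn1, hn2⟩ := hFDq i (h1 i ε h)
    by_cases his : i = s.base
    · have hn' : n = M := hn2 his
      refine Or.inr ⟨n, ?_, hn⟩
      rw [hn', hMε]
      rw [his] at h
      exact (h2 ε h).symm
    · rcases r.2 i ε h with h' | ⟨m, hm, h'⟩
      · exact absurd (h'.symm.trans hr) his
      · have h'' : FD i s.base m := by
          have : r.1.1 = s.base := hr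
          rw [← this]; exact h'
        have : m = n := FD.unique h'' (hn1 his)
        subst this
        exact Or.inr ⟨m, hm, hn⟩
  let s' : Pt.{u} := ⟨(q, s.lab), hvalid s rfl hIs hε1⟩
  let t' : Pt.{u} := ⟨(q, t.lab), hvalid t hst.1.symm hIt hε2⟩
  have hs' : s' ∈ a.1 := ha s s' (fun n hn => (hqM n (lt_of_lt_of_le hn hMN)).symm)
    (Or.inl rfl) hs
  have ht' : t' ∈ b.1 := hb t t' (fun n hn => by
    rw [← hst.1]; exact (hqM n (lt_of_lt_of_le hn hMN)).symm) (Or.inl rfl) ht
  have hst' : Rel s' t' := by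
    refine ⟨rfl, ?_⟩
    rintro ⟨ε, h1, -⟩
    exact hqI q (hIs q ε h1) rfl
  -- the small cylinder
  obtain ⟨N1, hN1⟩ := exists_bound q I
  let N' := max N N1
  have hF' : ∀ x ∈ F, ∃ n < N', FD x.1 q n := by
    intro x hx
    obtain ⟨n, hn, h⟩ := hN1 x.1 (hIF x hx) (hqI _ (hIF x hx))
    exact ⟨n, lt_of_lt_of_le hn (le_max_right _ _), h⟩
  refine ⟨cyl q N', ?_, ?_, ?_⟩
  · rintro ⟨x, hx, y, hy, hxy⟩
    refine hy ?_
    intro n hn
    rw [← hxy.1]
    exact hx n hn
  · exact ⟨s', ⟨hs', fun n _ => rfl⟩, t', ⟨ht', fun n _ => rfl⟩, hst'⟩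
  · by_contra hcon
    push Not at hcon
    obtain ⟨⟨x, hx, y, hy, hxy⟩, ⟨x', hx', y', hy', hxy'⟩⟩ := hcon
    obtain ⟨y1, hy1, hyq, hyl⟩ := move (le_max_left N N1) hc hF' hy
      (fun n hn => by rw [← hxy.1]; exact hx n hn)
    obtain ⟨y2, hy2, hyq', hyl'⟩ := move (le_max_left N N1) hd hF' hy'
      (fun n hn => by rw [← hxy'.1]; exact hx' n hn)
    refine hcd ⟨y1, hy1, y2, hy2, hyq.trans hyq'.symm, ?_⟩
    rintro ⟨ε, h1, -⟩
    rcases hyl with h | ⟨z, hz, h⟩
    · rw [h] at h1; cases h1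
    · rw [h] at h1
      have h2 : z = (y1.base, ε) := Option.some.inj h1
      have h3 : z.1 = q := by rw [h2]; exact hyq
      exact hqI z.1 (hIF z hz) h3

/-- The point `(p, none)`. -/
def pt0 (p : K.{u}) : Pt.{u} := ⟨(p, none), by intro i ε h; cases h⟩

/-- The point `(p, some (p, ε))`. -/
def pt1 (p : K.{u}) (ε : Bool) : Pt.{u} := ⟨(p, some (p, ε)), by
  intro i δ h
  have h' : (p, ε) = (i, δ) := Option.some.inj h
  exact Or.inl (congrArg Prod.fst h')⟩

/-- The clopen set of all points with label `some (p, ε)`. -/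
def Y (p : K.{u}) (ε : Bool) : Alg.{u} :=
  ⟨{s | s.lab = some (p, ε)}, 0, {(p, ε)}, fun s t _ h hs => by
    rcases h with h | h
    · exact h.symm.trans hs
    · exact absurd hs (h.1 _ (Finset.mem_singleton_self _))⟩

lemma Y_not_C (p : K.{u}) (ε : Bool) : ¬ C (Y p ε) (Y p (!ε)) := by
  rintro ⟨s, hs, t, ht, hst⟩
  have hs : s.lab = some (p, ε) := hs
  have ht : t.lab = some (p, !ε) := ht
  have h1 := s.2 p ε hs
  have h2 := t.2 p (!ε) ht
  have hbase : s.1.1 = t.1.1 := hst.1
  rw [← hbase] at h2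
  rcases h1 with h1 | ⟨n, hn, h1⟩
  · refine hst.2 ⟨ε, ?_, ?_⟩
    · rw [hs]; rw [show s.base = p from h1]
    · rw [ht]; rw [show s.base = p from h1]
  · rcases h2 with h2 | ⟨m, hm, h2⟩
    · exact h1.ne h2
    · have : n = m := FD.unique h1 h2
      subst this
      rw [hn] at hm
      cases ε <;> simp at hm

/-- If `z` is a finitely determined set whose members over `p` all have label `l` or are absent,
then near `p` all members of `z` have label `l`. -/
lemma local_lab {z : Alg.{u}} {p : K.{u}} (l : Option (K.{u} × Bool))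
    (h0 : pt0 p ∉ z.1) (hz : ∀ s ∈ z.1, s.base = p → s.lab = l) :
    ∃ M : ℕ, ∀ s ∈ z.1, (∀ n < M, s.base n = p n) → s.lab = l := by
  classical
  obtain ⟨N, F, hdet⟩ := z.2
  obtain ⟨M1, hM1⟩ := exists_bound p (F.image Prod.fst)
  refine ⟨max N M1, ?_⟩
  intro s hs hsp
  by_cases h : ∃ x ∈ F, s.lab = some x
  · obtain ⟨x, hx, hsx⟩ := h
    have hside : Side x.1 x.2 p := by
      by_cases hxp : x.1 = p
      · exact Or.inl hxp.symm
      · obtain ⟨n, hn, hFD⟩ := hM1 x.1 (Finset.mem_image_of_mem _ hx) hxp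
        have hsn : ∀ m ≤ n, s.base m = p m := fun m hm =>
          hsp m (lt_of_lt_of_le (lt_of_le_of_lt hm hn) (le_max_right _ _))
        have hFD' : FD x.1 s.base n :=
          ⟨fun m hm => by rw [hsn m hm.le]; exact hFD.1 m hm,
            by rw [hsn n le_rfl]; exact hFD.2⟩
        rcases s.2 x.1 x.2 hsx with h | ⟨m, hm, h⟩
        · exact absurd h hFD'.ne
        · have : m = n := FD.unique h hFD'
          subst this
          exact Or.inr ⟨m, hm, hFD⟩
    let t : Pt.{u} := ⟨(p, some x), by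
      intro i ε h
      have h' : x = (i, ε) := Option.some.inj h
      rw [h'] at hside
      exact hside⟩
    have ht : t ∈ z.1 :=
      hdet s t (fun n hn => hsp n (lt_of_lt_of_le hn (le_max_left _ _))) (Or.inl hsx) hs
    have := hz t ht rfl
    rw [hsx]
    exact this
  · push Not at h
    exfalso
    refine h0 (hdet s (pt0 p) (fun n hn => hsp n (lt_of_lt_of_le hn (le_max_left _ _)))
      (Or.inr ⟨h, ?_⟩) hs)
    intro x _ hx
    cases hx

theorem no_coEnd (Γ : Set (Alg.{u})) (hΓ : IsCoEnd Γ) : False := by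
  classical
  have hclan := hΓ.cluster.clan
  have htop : (⊤ : Alg.{u}) ∈ Γ := by
    obtain ⟨z, hz⟩ := hclan.nonempty
    exact hclan.upward z ⊤ le_top hz
  have hcompl : ∀ x : Alg.{u}, x ∉ Γ → xᶜ ∈ Γ := by
    intro x hx
    have : x ⊔ xᶜ ∈ Γ := by rwa [sup_compl_eq_top]
    exact (hclan.prime _ _ this).resolve_left hx
  have hbot : (⊥ : Alg.{u}) ∉ Γ := hclan.bot_notMem
  -- the coordinate sets
  let E : ℕ → ULift.{u} Bool → Alg.{u} := fun n v =>
    ⟨{s | s.base n = v}, n + 1, ∅, fun s t h _ hs => by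
      show t.base n = v
      rw [← h n (Nat.lt_succ_self n)]; exact hs⟩
  have hE : ∀ n, ∃ v, E n v ∈ Γ ∧ ∀ v', v' ≠ v → E n v' ∉ Γ := by
    intro n
    have hcover : E n ⟨true⟩ ⊔ E n ⟨false⟩ ∈ Γ := by
      have : E n ⟨true⟩ ⊔ E n ⟨false⟩ = ⊤ := by
        apply Subtype.ext
        ext s
        simp only [E, mem_sup_iff]
        constructor
        · intro _; trivial
        · intro _
          show s.base n = _ ∨ s.base n = _
          rcases h : s.base n with ⟨b⟩
          cases b
          · exact Or.inr rfl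
          · exact Or.inl rfl
      rwa [this]
    have hdisj : ∀ v v' : ULift.{u} Bool, v ≠ v' → ¬ C (E n v) (E n v') := by
      rintro v v' hne ⟨s, hs, t, ht, hst⟩
      apply hne
      have h1 : s.base n = v := hs
      have h2 : t.base n = v' := ht
      rw [← h1, ← h2, hst.1]
    rcases hclan.prime _ _ hcover with h | h
    · exact ⟨_, h, fun v' hv' h' => hdisj _ _ hv' (hclan.contact _ _ h' h)⟩
    · exact ⟨_, h, fun v' hv' h' => hdisj _ _ hv' (hclan.contact _ _ h' h)⟩
  choose p hp1 hp2 using hE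
  -- localisation
  have hloc : ∀ N, ∀ b ∈ Γ, b ⊓ cyl p N ∈ Γ := by
    intro N
    induction N with
    | zero =>
      intro b hb
      have : b ⊓ cyl p 0 = b := by
        apply Subtype.ext
        ext s
        rw [mem_inf_iff]
        exact ⟨fun h => h.1, fun h => ⟨h, fun n hn => absurd hn (Nat.not_lt_zero n)⟩⟩
      rwa [this]
    | succ N ih =>
      intro b hb
      have h1 := ih b hb
      have hsplit : b ⊓ cyl p N ≤ (b ⊓ cyl p (N + 1)) ⊔ E N ⟨!(p N).down⟩ := by
        intro s hs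
        rw [mem_sup_iff, mem_inf_iff]
        obtain ⟨hsb, hsc⟩ := hs
        by_cases h : s.base N = p N
        · refine Or.inl ⟨hsb, fun n hn => ?_⟩
          rcases Nat.lt_succ_iff_lt_or_eq.1 hn with h' | rfl
          · exact hsc n h'
          · exact h
        · refine Or.inr ?_
          show s.base N = _
          rcases h1 : s.base N with ⟨x⟩
          rcases h2 : p N with ⟨y⟩
          rw [h1, h2] at h
          cases x <;> cases y <;> simp_all
      rcases hclan.prime _ _ (hclan.upward _ _ hsplit h1) with h | h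
      · exact h
      · refine absurd h (hp2 N _ ?_)
        intro h'
        have := congrArg ULift.down h'
        simp at this
  -- a member of `Γ` cannot avoid all points over `p`
  have hmeet : ∀ z ∈ Γ, ∀ l, pt0 p ∉ z.1 → (∀ s ∈ z.1, s.base = p → s.lab = l) →
      ∀ y : Alg.{u}, (∀ s : Pt.{u}, s.lab = l → s ∈ y.1) → y ∈ Γ := by
    intro z hz l h0 hzl y hy
    obtain ⟨M, hM⟩ := local_lab l h0 hzl
    refine hclan.upward _ _ ?_ (hloc M z hz)
    intro s hs
    exact hy s (hM s hs.1 hs.2)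
  -- one of the two sets over `p` is not in `Γ`
  obtain ⟨ε, hε⟩ : ∃ ε, Y p ε ∉ Γ := by
    by_contra hcon
    push Not at hcon
    exact Y_not_C p true (hclan.contact _ _ (hcon true) (hcon (!true)))
  obtain ⟨y, hy, hYy⟩ := hΓ.round _ hε
  have hz : yᶜ ∈ Γ := hcompl y hy
  have hYz : ¬ C (Y p ε) yᶜ := hYy
  have hz1 : ∀ s ∈ (yᶜ).1, s.base = p → s.lab = some (p, !ε) := by
    intro s hs hsp
    by_contra hne
    refine hYz ⟨pt1 p ε, rfl, s, hs, hsp.symm, ?_⟩
    rintro ⟨δ, h1, h2⟩
    have h1' : (p, ε) = (p, δ) := Option.some.inj h1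
    have hεδ : ε = δ := congrArg Prod.snd h1'
    subst hεδ
    exact hne h2
  have hz0 : pt0 p ∉ (yᶜ).1 := by
    intro h
    have := hz1 _ h rfl
    cases this
  have hY' : Y p (!ε) ∈ Γ := hmeet _ hz _ hz0 hz1 _ (fun s hs => hs)
  -- second use of roundness
  obtain ⟨y', hy', hyy'⟩ := hΓ.round _ hy
  have hz' : y'ᶜ ∈ Γ := hcompl y' hy'
  have h0y : pt0 p ∈ y.1 := by
    by_contra h
    exact hz0 h
  have hz2 : ∀ s ∈ (y'ᶜ).1, s.base = p → False := by
    intro s hs hsp
    refine hyy' ⟨pt0 p, h0y, s, hs, hsp.symm, ?_⟩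
    rintro ⟨δ, h1, -⟩
    cases h1
  have hbotmem : (⊥ : Alg.{u}) ∈ Γ := by
    obtain ⟨M1, hM1⟩ := local_lab (z := y'ᶜ) (p := p) none (fun h => hz2 _ h rfl)
      (fun s hs hsp => (hz2 s hs hsp).elim)
    obtain ⟨M2, hM2⟩ := local_lab (z := y'ᶜ) (p := p) (some (p, true))
      (fun h => hz2 _ h rfl) (fun s hs hsp => (hz2 s hs hsp).elim)
    refine hclan.upward _ _ ?_ (hloc (max M1 M2) _ hz')
    intro s hs
    have h1 := hM1 s hs.1 (fun n hn => hs.2 n (lt_of_lt_of_le hn (le_max_left _ _)))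
    have h2 := hM2 s hs.1 (fun n hn => hs.2 n (lt_of_lt_of_le hn (le_max_right _ _)))
    rw [h1] at h2
    cases h2
  exact hbot hbotmem

theorem not_reg : ¬ Reg (Alg.{u}) := by
  intro h
  have hC : C (⊤ : Alg.{u}) ⊤ := by
    let s : Pt.{u} := pt0 (fun _ => ⟨true⟩)
    exact ⟨s, trivial, s, trivial, Rel.refl s⟩
  obtain ⟨Γ, hΓ, -, -⟩ := h ⊤ ⊤ hC
  exact no_coEnd Γ hΓ

end Example

/-! ## The first-order sentence expressing density -/

section Sentence

/-- The symbol for contact. -/
def symC : langCA.Relations 2 := CARel.contact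

/-- The symbol for complement. -/
def symCompl : langCA.Functions 1 := CAFunc.compl

/-- The symbol for meet. -/
def symInf : langCA.Functions 2 := CAFunc.inf

/-- The atomic formula `t C t'`. -/
def fC {n : ℕ} (t t' : langCA.Term (Empty ⊕ Fin n)) : langCA.BoundedFormula Empty n :=
  Relations.boundedFormula₂ symC t t'

/-- The matrix of the sentence, in variables `a b c d w`. -/
def matrix : langCA.BoundedFormula Empty 5 :=
  (fC (&4) (Functions.apply₁ symCompl (&4))).not ⊓
    (fC (Functions.apply₂ symInf (&0) (&4)) (Functions.apply₂ symInf (&1) (&4)) ⊓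
      ((fC (&4) (&2)).not ⊔ (fC (&4) (&3)).not))

/-- The sentence expressing `Dense`. -/
def sentD : langCA.Sentence :=
  BoundedFormula.all (BoundedFormula.all (BoundedFormula.all (BoundedFormula.all
    ((fC (&0) (&1)).imp ((fC (&2) (&3)).not.imp matrix.ex)))))

lemma realize_fC {B : Type u} [ContactAlgebra B] {n : ℕ} (t t' : langCA.Term (Empty ⊕ Fin n))
    (v : Empty → B) (xs : Fin n → B) :
    (fC t t').Realize v xs ↔ C (t.realize (Sum.elim v xs)) (t'.realize (Sum.elim v xs)) := by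
  rw [fC, BoundedFormula.realize_rel₂]
  rfl

lemma realize_compl {B : Type u} [ContactAlgebra B] {n : ℕ} (t : langCA.Term (Empty ⊕ Fin n))
    (v : Empty ⊕ Fin n → B) :
    (Functions.apply₁ symCompl t).realize v = (t.realize v)ᶜ := by
  rw [Term.realize_functions_apply₁]
  rfl

lemma realize_inf {B : Type u} [ContactAlgebra B] {n : ℕ} (t t' : langCA.Term (Empty ⊕ Fin n))
    (v : Empty ⊕ Fin n → B) :
    (Functions.apply₂ symInf t t').realize v = t.realize v ⊓ t'.realize v := by
  rw [Term.realize_functions_apply₂]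
  rfl

theorem models_sentD (B : Type u) [ContactAlgebra B] : B ⊨ sentD ↔ Dense B := by
  unfold Sentence.Realize Formula.Realize sentD Dense matrix
  simp only [BoundedFormula.realize_all, BoundedFormula.realize_imp, BoundedFormula.realize_ex,
    BoundedFormula.realize_inf, BoundedFormula.realize_sup, BoundedFormula.realize_not,
    realize_fC, realize_compl, realize_inf, Function.comp_apply, Term.realize_var, Sum.elim_inr]
  rfl

end Sentence

/-! ## Elementary substructures of contact algebras -/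

section Sub

variable {B : Type u} [ContactAlgebra B] (S : langCA.ElementarySubstructure B)

/-- A copy of the underlying type of an elementary substructure. -/
def Sub : Type u := {x : B // x ∈ S}

/-- The inclusion. -/
def Sub.val (x : Sub S) : B := x.1

lemma Sub.val_injective : Function.Injective (Sub.val S) := Subtype.val_injective

lemma fun_mem' {n : ℕ} (f : langCA.Functions n) (x : Fin n → B) (hx : ∀ i, x i ∈ S) :
    Structure.funMap f x ∈ S :=
  S.toSubstructure.fun_mem f x hx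

lemma bot_mem : (⊥ : B) ∈ S := fun_mem' S (CAFunc.zero : langCA.Functions 0) ![] (fun i => i.elim0)

lemma top_mem : (⊤ : B) ∈ S := fun_mem' S (CAFunc.one : langCA.Functions 0) ![] (fun i => i.elim0)

lemma compl_mem {a : B} (ha : a ∈ S) : aᶜ ∈ S :=
  fun_mem' S (CAFunc.compl : langCA.Functions 1) ![a] (fun i => by
    fin_cases i; exact ha)

lemma sup_mem {a b : B} (ha : a ∈ S) (hb : b ∈ S) : a ⊔ b ∈ S :=
  fun_mem' S (CAFunc.sup : langCA.Functions 2) ![a, b] (fun i => by
    fin_cases i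
    · exact ha
    · exact hb)

lemma inf_mem {a b : B} (ha : a ∈ S) (hb : b ∈ S) : a ⊓ b ∈ S :=
  fun_mem' S (CAFunc.inf : langCA.Functions 2) ![a, b] (fun i => by
    fin_cases i
    · exact ha
    · exact hb)

instance : Max (Sub S) := ⟨fun a b => ⟨a.1 ⊔ b.1, sup_mem S a.2 b.2⟩⟩
instance : Min (Sub S) := ⟨fun a b => ⟨a.1 ⊓ b.1, inf_mem S a.2 b.2⟩⟩
instance : Top (Sub S) := ⟨⟨⊤, top_mem S⟩⟩
instance : Bot (Sub S) := ⟨⟨⊥, bot_mem S⟩⟩
instance : Compl (Sub S) := ⟨fun a => ⟨a.1ᶜ, compl_mem S a.2⟩⟩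
instance : SDiff (Sub S) := ⟨fun a b => ⟨a.1 \ b.1, by
  rw [sdiff_eq]; exact inf_mem S a.2 (compl_mem S b.2)⟩⟩
instance : HImp (Sub S) := ⟨fun a b => ⟨a.1 ⇨ b.1, by
  rw [himp_eq]; exact sup_mem S b.2 (compl_mem S a.2)⟩⟩
instance : LE (Sub S) := ⟨fun a b => a.1 ≤ b.1⟩
instance : LT (Sub S) := ⟨fun a b => a.1 < b.1⟩

instance : BooleanAlgebra (Sub S) :=
  Function.Injective.booleanAlgebra (Sub.val S) (Sub.val_injective S) Iff.rfl Iff.rfl
    (fun _ _ => rfl) (fun _ _ => rfl) rfl rfl (fun _ => rfl) (fun _ _ => rfl) (fun _ _ => rfl)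

instance : ContactAlgebra (Sub S) where
  C a b := C a.1 b.1
  c1 _ _ h := ⟨fun h' => (c1 _ _ h).1 (congrArg Subtype.val h'),
    fun h' => (c1 _ _ h).2 (congrArg Subtype.val h')⟩
  c2 a b c := c2 a.1 b.1 c.1
  c3 _ _ h := c3 _ _ h
  c4 _ _ h := c4 _ _ (fun h' => h (Subtype.ext h'))

/-- The identity as an isomorphism of structures. -/
def subEquiv : langCA.Equiv (Sub S) S where
  toFun x := x
  invFun x := x
  left_inv _ := rfl
  right_inv _ := rfl
  map_fun' := by
    intro n f x
    cases f <;> rfl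
  map_rel' := by
    intro n r x
    cases r
    exact Iff.rfl

lemma sub_realize (φ : langCA.Sentence) : Sub S ⊨ φ ↔ B ⊨ φ := by
  have h1 : Sub S ⊨ φ ↔ S ⊨ φ := StrongHomClass.realize_sentence (subEquiv S) φ
  rw [h1]
  exact S.realize_sentence φ

end Sub

/-- Every first-order sentence is decided the same way in some countable contact algebra
with the density property. -/
theorem exists_countable (B : Type u) [ContactAlgebra B] (hD : Dense B) :
    ∃ (B' : Type u) (_ : ContactAlgebra B'), Countable B' ∧ Dense B' ∧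
      ∀ φ : langCA.Sentence, B' ⊨ φ ↔ B ⊨ φ := by
  by_cases hc : Countable B
  · exact ⟨B, inferInstance, hc, hD, fun φ => Iff.rfl⟩
  · have hB : Cardinal.aleph0 ≤ Cardinal.mk B := by
      by_contra hcon
      push Not at hcon
      exact hc (Cardinal.mk_le_aleph0_iff.1 hcon.le)
    have hL : langCA.card ≤ Cardinal.aleph0 := by
      have h1 : Countable (Σ l, langCA.Functions l) := by
        refine Function.Injective.countable (β := ℕ × ℕ)
          (f := fun x => (x.1, match x.1, x.2 with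
            | _, CAFunc.zero => 0
            | _, CAFunc.one => 1
            | _, CAFunc.compl => 2
            | _, CAFunc.sup => 3
            | _, CAFunc.inf => 4)) ?_
        rintro ⟨n, f⟩ ⟨m, g⟩ h
        cases f <;> cases g <;> simp_all
      have h2 : Countable (Σ l, langCA.Relations l) := by
        refine Function.Injective.countable (β := ℕ) (f := fun x => x.1) ?_
        rintro ⟨n, f⟩ ⟨m, g⟩ h
        cases f; cases g; rfl
      have h3 : Countable langCA.Symbols := by
        unfold Language.Symbols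
        infer_instance
      exact Cardinal.mk_le_aleph0_iff.2 h3
    obtain ⟨S, -, hS⟩ := exists_elementarySubstructure_card_eq langCA (M := B) ∅
      Cardinal.aleph0.{u} le_rfl (by simp) (by simpa using hL) (by simpa using hB)
    refine ⟨Sub S, inferInstance, ?_, ?_, fun φ => sub_realize S φ⟩
    · have : Cardinal.mk S = Cardinal.aleph0 := by simpa using hS
      exact Cardinal.mk_le_aleph0_iff.1 this.le
    · rw [← models_sentD, sub_realize, models_sentD]
      exact hD

/-- **Main theorem.** No set `T` of first-order sentences in the language of contact algebras has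
the property that a contact algebra satisfies all sentences of `T` if and only if it satisfies the
regularity axiom (Reg). In particular no single first-order sentence is equivalent to (Reg) over
all contact algebras. -/
theorem result : ¬ ∃ T : langCA.Theory, ∀ (B : Type u) [ContactAlgebra B], B ⊨ T ↔ Reg B := by
  rintro ⟨T, hT⟩
  obtain ⟨B', inst, hc, hD, hφ⟩ := exists_countable (Example.Alg.{u}) Example.dense
  have h1 : Reg B' := reg_of_countable hD
  have h2 : B' ⊨ T := (hT B').2 h1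
  have h3 : Example.Alg.{u} ⊨ T := by
    rw [Theory.model_iff] at h2 ⊢
    intro φ hφT
    exact (hφ φ).1 (h2 φ hφT)
  exact Example.not_reg ((hT _).1 h3)

end Pool.Agent.Results.MP_50aa38_lc.NotFirstOrder
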